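import Mathlib

/-!
# The threshold `2 / 3` for the unit equation in random sets of primes: the statements

The pairs `(a, b)` of integers in `(Y, 2 Y]`, congruent to `1` modulo `60`, with `a b (a + b)`
squarefree; the number of those with `d ∣ a b (a + b)`; the second moment.
-/

set_option autoImplicit false

namespace Pool.Agent.K3h37.RS.Low

open MeasureTheory

/-- the product `a b (a + b)` -/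
def R (x : ℕ × ℕ) : ℕ := x.1 * x.2 * (x.1 + x.2)

/-- the family of the pairs -/
def Fam (Y : ℕ) : Finset (ℕ × ℕ) :=
  ((Finset.Ioc Y (2 * Y)) ×ˢ (Finset.Ioc Y (2 * Y))).filter
    fun x => x.1 % 60 = 1 ∧ x.2 % 60 = 1 ∧ Squarefree (R x)

/-- LOW: a positive proportion of the pairs -/
def S_LOW : Prop := ∃ c : ℝ, 0 < c ∧ ∃ Y₀ : ℕ, ∀ Y : ℕ, Y₀ ≤ Y →
  c * (Y : ℝ) ^ 2 ≤ ((Fam Y).card : ℝ)

/-- LAT: the coprime pairs in a lattice -/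
def S_LAT : Prop := ∀ (Y d₁ d₂ d₃ : ℕ), 1 ≤ Y → 1 ≤ d₁ → 1 ≤ d₂ → 1 ≤ d₃ →
  Nat.Coprime d₁ d₂ → Nat.Coprime (d₁ * d₂) d₃ → ∀ A : Finset (ℕ × ℕ),
  (∀ x ∈ A, x.1 ∈ Finset.Ioc Y (2 * Y) ∧ x.2 ∈ Finset.Ioc Y (2 * Y) ∧ Nat.Coprime x.1 x.2 ∧
    d₁ ∣ x.1 ∧ d₂ ∣ x.2 ∧ d₃ ∣ x.1 + x.2) →
  (A.card : ℝ) ≤ 8 * (Y : ℝ) ^ 2 / ((d₁ * d₂ * d₃ : ℕ) : ℝ) + 1

/-- NUM: the pairs with `d ∣ a b (a + b)` -/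
def S_NUM : Prop := ∀ ε : ℝ, 0 < ε → ∃ C : ℝ, 0 < C ∧ ∀ Y d : ℕ, 1 ≤ Y → 1 ≤ d →
  ((((Fam Y).filter fun x => d ∣ R x).card : ℕ) : ℝ) ≤
    C * (d : ℝ) ^ ε * (8 * (Y : ℝ) ^ 2 / d + 1)

/-- SUM: the correlations -/
def S_SUM : Prop := ∀ θ : ℝ, 0 ≤ θ → θ < 2 / 3 → ∃ C : ℝ, 0 < C ∧ ∀ Y : ℕ, 1 ≤ Y →
  ∑ x ∈ Fam Y, ∑ y ∈ Fam Y, ((Nat.gcd (R x) (R y) : ℕ) : ℝ) ^ θ ≤ C * (Y : ℝ) ^ 4

/-- PZ: the second moment -/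
def S_PZ : Prop := ∀ (Ω : Type) [MeasurableSpace Ω] (μ : Measure Ω) [IsProbabilityMeasure μ]
  (α : Type) (F : Finset α) (E : α → Set Ω), (∀ x ∈ F, MeasurableSet (E x)) →
  (∑ x ∈ F, μ.real (E x)) ^ 2 ≤
    μ.real (⋃ x ∈ F, E x) * ∑ x ∈ F, ∑ y ∈ F, μ.real (E x ∩ E y)

/-- LIM: the upper limit of events of probability at least `c` -/
def S_LIM : Prop := ∀ (Ω : Type) [MeasurableSpace Ω] (μ : Measure Ω) [IsProbabilityMeasure μ]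
  (B : ℕ → Set Ω) (c : ℝ), 0 < c → (∀ k, MeasurableSet (B k)) → ∀ k₀ : ℕ,
  (∀ k, k₀ ≤ k → c ≤ μ.real (B k)) → 0 < μ {ω | ∀ n : ℕ, ∃ k, n ≤ k ∧ ω ∈ B k}

end Pool.Agent.K3h37.RS.Low
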