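import Mathlib
import Pool.Agent.K3h37.RS.Low.Stm
import Pool.Agent.H510R2.Div

/-!
# The coprime pairs in a lattice, and the pairs with `d ∣ a b (a + b)`
-/

set_option autoImplicit false

namespace Pool.Agent.K3h37.RS.Low

theorem t_LAT : S_LAT := by
  classical
  intro Y d₁ d₂ d₃ hY h1 h2 h3 hc12 hc3 A hA
  obtain ⟨d, hd⟩ : ∃ d, d = d₁ * d₂ * d₃ := ⟨_, rfl⟩
  rw [← hd]
  have hd1 : 1 ≤ d := by
    rw [hd]
    exact Nat.one_le_iff_ne_zero.2 (by positivity)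
  have hYR : (1 : ℝ) ≤ Y := by exact_mod_cast hY
  have hdR : (1 : ℝ) ≤ d := by exact_mod_cast hd1
  obtain ⟨q, hq⟩ : ∃ q : ℝ, q = 4 * (Y : ℝ) ^ 2 / d := ⟨_, rfl⟩
  have hq0 : 0 < q := by rw [hq]; positivity
  -- the map
  set f : ℕ × ℕ → ℕ := fun x => ⌊(x.1 : ℝ) / x.2 * q⌋₊ with hf
  have hpos : ∀ x ∈ A, (0 : ℝ) < x.2 ∧ (Y : ℝ) < x.2 ∧ (x.2 : ℝ) ≤ 2 * Y ∧ (x.1 : ℝ) ≤ 2 * Y := by
    intro x hx
    obtain ⟨e1, e2, -⟩ := hA x hx
    rw [Finset.mem_Ioc] at e1 e2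
    have e3 : (Y : ℝ) < x.2 := by exact_mod_cast e2.1
    exact ⟨by linarith, e3, by exact_mod_cast e2.2, by exact_mod_cast e1.2⟩
  have hmaps : ∀ x ∈ A, f x ∈ Finset.range (⌊2 * q⌋₊ + 1) := by
    intro x hx
    obtain ⟨p1, p2, p3, p4⟩ := hpos x hx
    rw [Finset.mem_range, Nat.lt_succ_iff]
    refine Nat.floor_le_floor (mul_le_mul_of_nonneg_right ?_ hq0.le)
    rw [div_le_iff₀ p1]
    linarith
  have hinj : Set.InjOn f A := by
    intro x hx y hy hxy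
    by_contra hne
    obtain ⟨a1, a2, a3, a4, a5, a6⟩ := hA x hx
    obtain ⟨b1, b2, b3, b4, b5, b6⟩ := hA y hy
    obtain ⟨p1, p2, p3, p4⟩ := hpos x hx
    obtain ⟨r1, r2, r3, r4⟩ := hpos y hy
    -- the determinant
    obtain ⟨D, hD⟩ : ∃ D : ℤ, D = (x.1 : ℤ) * y.2 - y.1 * x.2 := ⟨_, rfl⟩
    have hD0 : D ≠ 0 := by
      intro h0
      rw [hD, sub_eq_zero] at h0
      have h4 : x.1 * y.2 = y.1 * x.2 := by exact_mod_cast h0
      apply hne
      have e1 : x.1 ∣ y.1 := a3.dvd_of_dvd_mul_right (h4 ▸ Dvd.intro _ rfl)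
      have e2 : y.1 ∣ x.1 := b3.dvd_of_dvd_mul_right (h4.symm ▸ Dvd.intro _ rfl)
      have e3 : x.1 = y.1 := Nat.dvd_antisymm e1 e2
      have hx1 : 0 < x.1 := by
        rw [Finset.mem_Ioc] at a1
        omega
      have e4 : x.2 = y.2 := by
        rw [e3] at h4
        exact (Nat.eq_of_mul_eq_mul_left (e3 ▸ hx1) h4).symm
      exact Prod.ext e3 e4
    have hdvd : (d : ℤ) ∣ D := by
      have k1 : (d₁ : ℤ) ∣ D := by
        rw [hD]
        exact dvd_sub ((Int.natCast_dvd_natCast.2 a4).mul_right _)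
          ((Int.natCast_dvd_natCast.2 b4).mul_right _)
      have k2 : (d₂ : ℤ) ∣ D := by
        rw [hD]
        exact dvd_sub ((Int.natCast_dvd_natCast.2 b5).mul_left _)
          ((Int.natCast_dvd_natCast.2 a5).mul_left _)
      have k3 : (d₃ : ℤ) ∣ D := by
        have m1 : (d₃ : ℤ) ∣ (x.1 : ℤ) + x.2 := by exact_mod_cast a6
        have m2 : (d₃ : ℤ) ∣ (y.1 : ℤ) + y.2 := by exact_mod_cast b6
        have m3 : D = ((x.1 : ℤ) + x.2) * y.2 - (y.1 + y.2) * x.2 := by rw [hD]; ring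
        rw [m3]
        exact dvd_sub (m1.mul_right _) (m2.mul_right _)
      rw [hd]
      push_cast
      refine IsCoprime.mul_dvd ?_ (IsCoprime.mul_dvd ?_ k1 k2) k3
      · exact_mod_cast Nat.isCoprime_iff_coprime.2 hc3
      · exact Nat.isCoprime_iff_coprime.2 hc12
    have hDd : (d : ℤ) ≤ |D| := Int.le_of_dvd (abs_pos.2 hD0) ((dvd_abs _ _).2 hdvd)
    have hDR : (d : ℝ) ≤ |(D : ℝ)| := by exact_mod_cast hDd
    -- the difference of the slopes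
    have h5 : (x.1 : ℝ) / x.2 * q - y.1 / y.2 * q = D * q / (x.2 * y.2) := by
      rw [hD]
      push_cast
      field_simp
    have h6 : 1 ≤ |(x.1 : ℝ) / x.2 * q - y.1 / y.2 * q| := by
      rw [h5, abs_div, abs_mul, abs_of_pos hq0, abs_of_pos (mul_pos p1 r1),
        le_div_iff₀ (mul_pos p1 r1), one_mul]
      have h7 : (x.2 : ℝ) * y.2 ≤ 4 * (Y : ℝ) ^ 2 := by nlinarith
      have h8 : d * q = 4 * (Y : ℝ) ^ 2 := by
        rw [hq]
        field_simp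
      calc (x.2 : ℝ) * y.2 ≤ d * q := by rw [h8]; exact h7
        _ ≤ |(D : ℝ)| * q := mul_le_mul_of_nonneg_right hDR hq0.le
    have g1 : 0 ≤ (x.1 : ℝ) / x.2 * q := by positivity
    have g2 : 0 ≤ (y.1 : ℝ) / y.2 * q := by positivity
    have h9 : (⌊(x.1 : ℝ) / x.2 * q⌋₊ : ℝ) = ⌊(y.1 : ℝ) / y.2 * q⌋₊ := by exact_mod_cast hxy
    have u1 := Nat.floor_le g1
    have u2 := Nat.lt_floor_add_one ((x.1 : ℝ) / x.2 * q)
    have u3 := Nat.floor_le g2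
    have u4 := Nat.lt_floor_add_one ((y.1 : ℝ) / y.2 * q)
    rw [le_abs] at h6
    rcases h6 with h6 | h6 <;> linarith
  have h4 := Finset.card_le_card_of_injOn f hmaps hinj
  rw [Finset.card_range] at h4
  have h5 : (A.card : ℝ) ≤ (⌊2 * q⌋₊ : ℝ) + 1 := by exact_mod_cast h4
  have h6 := Nat.floor_le (show 0 ≤ 2 * q by positivity)
  have h7 : 8 * (Y : ℝ) ^ 2 / d = 2 * q := by rw [hq]; ring
  rw [h7]
  linarith

theorem mem_fam {Y : ℕ} {x : ℕ × ℕ} (hx : x ∈ Fam Y) :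
    x.1 ∈ Finset.Ioc Y (2 * Y) ∧ x.2 ∈ Finset.Ioc Y (2 * Y) ∧ Squarefree (R x) ∧
      Nat.Coprime x.1 x.2 ∧ Nat.Coprime (x.1 * x.2) (x.1 + x.2) := by
  unfold Fam at hx
  rw [Finset.mem_filter, Finset.mem_product] at hx
  obtain ⟨⟨h1, h2⟩, -, -, h3⟩ := hx
  have h3' : Squarefree (x.1 * x.2 * (x.1 + x.2)) := h3
  have h4 := Nat.coprime_of_squarefree_mul h3'
  have h5 := Nat.coprime_of_squarefree_mul (h3'.of_mul_left)
  exact ⟨h1, h2, h3, h5, h4⟩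

theorem t_NUM : S_NUM := by
  classical
  intro ε hε
  obtain ⟨C, hC, hdiv⟩ := Pool.Agent.H510R2.divisor_bound (ε / 2) (by linarith)
  refine ⟨C ^ 2, by positivity, fun Y d hY hd => ?_⟩
  have hdR : (1 : ℝ) ≤ d := by exact_mod_cast hd
  set S := (Fam Y).filter fun x => d ∣ R x with hS
  set B : ℝ := 8 * (Y : ℝ) ^ 2 / d + 1 with hB
  have hB0 : 0 ≤ B := by rw [hB]; positivity
  have hfib : ∀ b ∈ d.divisors ×ˢ d.divisors,
      (S.filter fun x => (Nat.gcd d x.1, Nat.gcd d x.2) = b).card ≤ ⌊B⌋₊ := by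
    intro b hb
    rcases (S.filter fun x => (Nat.gcd d x.1, Nat.gcd d x.2) = b).eq_empty_or_nonempty with he | hne
    · rw [he, Finset.card_empty]
      exact Nat.zero_le _
    · refine Nat.le_floor ?_
      obtain ⟨y, hy⟩ := hne
      have key : ∀ x ∈ S.filter fun x => (Nat.gcd d x.1, Nat.gcd d x.2) = b,
          x.1 ∈ Finset.Ioc Y (2 * Y) ∧ x.2 ∈ Finset.Ioc Y (2 * Y) ∧ Nat.Coprime x.1 x.2 ∧
          b.1 ∣ x.1 ∧ b.2 ∣ x.2 ∧ Nat.Coprime b.1 b.2 ∧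
          Nat.Coprime (b.1 * b.2) (Nat.gcd d (x.1 + x.2)) ∧
          b.1 * b.2 * Nat.gcd d (x.1 + x.2) = d := by
        intro x hx
        rw [Finset.mem_filter, hS, Finset.mem_filter] at hx
        obtain ⟨⟨hx1, hx2⟩, hx3⟩ := hx
        obtain ⟨m1, m2, m3, m4, m5⟩ := mem_fam hx1
        have e1 : Nat.gcd d x.1 = b.1 := congrArg Prod.fst hx3
        have e2 : Nat.gcd d x.2 = b.2 := congrArg Prod.snd hx3
        have c1 : b.1 ∣ x.1 := e1 ▸ Nat.gcd_dvd_right _ _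
        have c2 : b.2 ∣ x.2 := e2 ▸ Nat.gcd_dvd_right _ _
        refine ⟨m1, m2, m4, c1, c2, ?_, ?_, ?_⟩
        · exact Nat.Coprime.coprime_dvd_left c1 (Nat.Coprime.coprime_dvd_right c2 m4)
        · exact Nat.Coprime.coprime_dvd_left (Nat.mul_dvd_mul c1 c2)
            (Nat.Coprime.coprime_dvd_right (Nat.gcd_dvd_right _ _) m5)
        · rw [← e1, ← e2, ← Nat.Coprime.gcd_mul d m4, ← Nat.Coprime.gcd_mul d m5]
          exact Nat.gcd_eq_left hx2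
      obtain ⟨-, -, -, -, -, k1, k2, k3⟩ := key y hy
      have hpos : 0 < b.1 * b.2 * Nat.gcd d (y.1 + y.2) := by rw [k3]; omega
      have hb1 : 0 < b.1 := Nat.pos_of_ne_zero fun h => by simp [h] at hpos
      have hb2 : 0 < b.2 := Nat.pos_of_ne_zero fun h => by simp [h] at hpos
      have hg : 0 < Nat.gcd d (y.1 + y.2) := Nat.pos_of_ne_zero fun h => by simp [h] at hpos
      have h6 := t_LAT Y b.1 b.2 (Nat.gcd d (y.1 + y.2)) hY hb1 hb2 hg k1 k2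
        (S.filter fun x => (Nat.gcd d x.1, Nat.gcd d x.2) = b) fun x hx => by
          obtain ⟨n1, n2, n3, n4, n5, n6, n7, n8⟩ := key x hx
          refine ⟨n1, n2, n3, n4, n5, ?_⟩
          have h7 : Nat.gcd d (y.1 + y.2) = Nat.gcd d (x.1 + x.2) :=
            Nat.eq_of_mul_eq_mul_left (Nat.mul_pos hb1 hb2) (k3.trans n8.symm)
          rw [h7]
          exact Nat.gcd_dvd_right _ _
      rw [k3] at h6
      exact h6
  have hmaps : ∀ x ∈ S, (Nat.gcd d x.1, Nat.gcd d x.2) ∈ d.divisors ×ˢ d.divisors := by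
    intro x _
    rw [Finset.mem_product, Nat.mem_divisors, Nat.mem_divisors]
    exact ⟨⟨Nat.gcd_dvd_left _ _, by omega⟩, ⟨Nat.gcd_dvd_left _ _, by omega⟩⟩
  have h8 := Finset.card_le_mul_card_image_of_maps_to hmaps ⌊B⌋₊ hfib
  rw [Finset.card_product] at h8
  have h9 : (S.card : ℝ) ≤ (⌊B⌋₊ : ℝ) * ((d.divisors.card : ℝ) * d.divisors.card) := by
    exact_mod_cast h8
  have h10 := hdiv d hd
  have h11 : ((d : ℝ) ^ (ε / 2)) ^ 2 = (d : ℝ) ^ ε := by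
    rw [← Real.rpow_natCast, ← Real.rpow_mul (by linarith)]
    congr 1
    push_cast
    ring
  have h12 : (d.divisors.card : ℝ) * d.divisors.card ≤ C ^ 2 * (d : ℝ) ^ ε := by
    rw [← h11]
    calc (d.divisors.card : ℝ) * d.divisors.card ≤
        (C * (d : ℝ) ^ (ε / 2)) * (C * (d : ℝ) ^ (ε / 2)) :=
          mul_le_mul h10 h10 (Nat.cast_nonneg _) (by positivity)
      _ = C ^ 2 * ((d : ℝ) ^ (ε / 2)) ^ 2 := by ring
  calc (S.card : ℝ) ≤ (⌊B⌋₊ : ℝ) * ((d.divisors.card : ℝ) * d.divisors.card) := h9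
    _ ≤ B * (C ^ 2 * (d : ℝ) ^ ε) :=
        mul_le_mul (Nat.floor_le hB0) h12 (by positivity) hB0
    _ = C ^ 2 * (d : ℝ) ^ ε * B := by ring

end Pool.Agent.K3h37.RS.Low
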