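import Mathlib
import Pool.Agent.K3h37.RS.Low.Lat

/-!
# The unit equation in a random set of primes: infinitely many solutions below the threshold
-/

set_option autoImplicit false

namespace Pool.Agent.K3h37.RS.Low

open MeasureTheory

/-- the primes of the random set `Q` are independent, and `p` is in `Q` with probability `p ^ (-θ)` -/
def IndNat {Ω : Type} [MeasurableSpace Ω] (μ : Measure Ω) (Q : Ω → Set ℕ) (θ : ℝ) : Prop :=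
  ∀ T : Finset ℕ, (∀ p ∈ T, p.Prime) → MeasurableSet {ω | ∀ p ∈ T, p ∈ Q ω} ∧
    μ {ω | ∀ p ∈ T, p ∈ Q ω} = ENNReal.ofReal (∏ p ∈ T, (p : ℝ) ^ (-θ))

/-- the event that all primes of `a b (a + b)` are in the random set -/
def Ev {Ω : Type} (Q : Ω → Set ℕ) (x : ℕ × ℕ) : Set Ω := {ω | ∀ p ∈ (R x).primeFactors, p ∈ Q ω}

theorem ev_meas {Ω : Type} [MeasurableSpace Ω] {μ : Measure Ω} {Q : Ω → Set ℕ} {θ : ℝ}
    (h : IndNat μ Q θ) (x : ℕ × ℕ) : MeasurableSet (Ev Q x) :=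
  (h _ fun _ hp => Nat.prime_of_mem_primeFactors hp).1

theorem prod_rad {n : ℕ} (hn : Squarefree n) (θ : ℝ) :
    ∏ p ∈ n.primeFactors, (p : ℝ) ^ θ = (n : ℝ) ^ θ := by
  rw [Real.finsetProd_rpow _ _ fun p _ => Nat.cast_nonneg _]
  congr 1
  rw [← Nat.cast_prod, Nat.prod_primeFactors_of_squarefree hn]

theorem ev_prob {Ω : Type} [MeasurableSpace Ω] {μ : Measure Ω} {Q : Ω → Set ℕ} {θ : ℝ}
    (h : IndNat μ Q θ) {x : ℕ × ℕ} (hx : Squarefree (R x)) :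
    μ.real (Ev Q x) = (R x : ℝ) ^ (-θ) := by
  have h1 := (h (R x).primeFactors fun _ hp => Nat.prime_of_mem_primeFactors hp).2
  rw [prod_rad hx] at h1
  show (μ (Ev Q x)).toReal = _
  have h2 : μ (Ev Q x) = ENNReal.ofReal ((R x : ℝ) ^ (-θ)) := h1
  rw [h2, ENNReal.toReal_ofReal (Real.rpow_nonneg (Nat.cast_nonneg _) _)]

theorem ev_pair {Ω : Type} [MeasurableSpace Ω] {μ : Measure Ω} {Q : Ω → Set ℕ} {θ : ℝ}
    (h : IndNat μ Q θ) {x y : ℕ × ℕ} (hx : Squarefree (R x)) (hy : Squarefree (R y)) :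
    μ.real (Ev Q x ∩ Ev Q y) =
      (R x : ℝ) ^ (-θ) * (R y : ℝ) ^ (-θ) * ((Nat.gcd (R x) (R y) : ℕ) : ℝ) ^ θ := by
  classical
  have e1 : Ev Q x ∩ Ev Q y =
      {ω | ∀ p ∈ (R x).primeFactors ∪ (R y).primeFactors, p ∈ Q ω} := by
    ext ω
    constructor
    · rintro ⟨h1, h2⟩ p hp
      rcases Finset.mem_union.1 hp with h3 | h3
      · exact h1 p h3
      · exact h2 p h3
    · intro h1
      exact ⟨fun p hp => h1 p (Finset.mem_union_left _ hp),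
        fun p hp => h1 p (Finset.mem_union_right _ hp)⟩
  have h1 := (h ((R x).primeFactors ∪ (R y).primeFactors) fun p hp => by
    rcases Finset.mem_union.1 hp with h3 | h3
    · exact Nat.prime_of_mem_primeFactors h3
    · exact Nat.prime_of_mem_primeFactors h3).2
  have h0 : 0 ≤ ∏ p ∈ (R x).primeFactors ∪ (R y).primeFactors, (p : ℝ) ^ (-θ) :=
    Finset.prod_nonneg fun p _ => Real.rpow_nonneg (Nat.cast_nonneg _) _
  have h2 : μ.real (Ev Q x ∩ Ev Q y) =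
      ∏ p ∈ (R x).primeFactors ∪ (R y).primeFactors, (p : ℝ) ^ (-θ) := by
    show (μ (Ev Q x ∩ Ev Q y)).toReal = _
    rw [e1, h1, ENNReal.toReal_ofReal h0]
  have hx0 : R x ≠ 0 := hx.ne_zero
  have hy0 : R y ≠ 0 := hy.ne_zero
  have hg : Squarefree (Nat.gcd (R x) (R y)) := hx.squarefree_of_dvd (Nat.gcd_dvd_left _ _)
  have hgpos : (0 : ℝ) < ((Nat.gcd (R x) (R y) : ℕ) : ℝ) := by
    have := Nat.pos_of_ne_zero hg.ne_zero
    exact_mod_cast this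
  have h3 := Finset.prod_union_inter (s₁ := (R x).primeFactors) (s₂ := (R y).primeFactors)
    (f := fun p => (p : ℝ) ^ (-θ))
  rw [← Nat.primeFactors_gcd hx0 hy0, prod_rad hx, prod_rad hy, prod_rad hg, ← h2] at h3
  rw [← h3, mul_assoc, ← Real.rpow_add hgpos]
  simp

theorem R_bounds {Y : ℕ} {x : ℕ × ℕ} (hx : x ∈ Fam Y) :
    (Y : ℝ) ^ 3 ≤ R x ∧ (R x : ℝ) ≤ 16 * (Y : ℝ) ^ 3 := by
  obtain ⟨h1, h2, -⟩ := mem_fam hx
  rw [Finset.mem_Ioc] at h1 h2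
  have e1 : (Y : ℝ) ≤ x.1 := by exact_mod_cast h1.1.le
  have e2 : (Y : ℝ) ≤ x.2 := by exact_mod_cast h2.1.le
  have e3 : (x.1 : ℝ) ≤ 2 * Y := by exact_mod_cast h1.2
  have e4 : (x.2 : ℝ) ≤ 2 * Y := by exact_mod_cast h2.2
  have hY : (0 : ℝ) ≤ Y := Nat.cast_nonneg _
  have e5 : (R x : ℝ) = x.1 * x.2 * (x.1 + x.2) := by
    unfold R
    push_cast
    ring
  rw [e5]
  constructor
  · calc (Y : ℝ) ^ 3 = Y * Y * Y := by ring
      _ ≤ x.1 * x.2 * (x.1 + x.2) :=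
        mul_le_mul (mul_le_mul e1 e2 hY (by linarith)) (by linarith) hY (by positivity)
  · calc (x.1 : ℝ) * x.2 * (x.1 + x.2) ≤ (2 * Y) * (2 * Y) * (4 * Y) :=
        mul_le_mul (mul_le_mul e3 e4 (by linarith) (by linarith)) (by linarith) (by linarith)
          (by positivity)
      _ = 16 * (Y : ℝ) ^ 3 := by ring

/-- a positive probability at every large scale -/
theorem pos (hLOW : S_LOW) (hSUM : S_SUM) (hPZ : S_PZ) {Ω : Type} [MeasurableSpace Ω]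
    {μ : Measure Ω} [IsProbabilityMeasure μ] {Q : Ω → Set ℕ} {θ : ℝ} (h : IndNat μ Q θ)
    (h0 : 0 ≤ θ) (h1 : θ < 2 / 3) :
    ∃ c : ℝ, 0 < c ∧ ∃ Y₀ : ℕ, ∀ Y : ℕ, Y₀ ≤ Y → c ≤ μ.real (⋃ x ∈ Fam Y, Ev Q x) := by
  obtain ⟨c, hc, Y₀, hlow⟩ := hLOW
  obtain ⟨C, hC, hsum⟩ := hSUM θ h0 h1
  refine ⟨c ^ 2 * ((16 : ℝ) ^ (-θ)) ^ 2 / C, by positivity, max Y₀ 1, fun Y hY => ?_⟩
  have hY0 := hlow Y ((le_max_left _ _).trans hY)
  have hY1 : 1 ≤ Y := (le_max_right _ _).trans hY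
  have hYR : (1 : ℝ) ≤ Y := by exact_mod_cast hY1
  have hYp : (0 : ℝ) < (Y : ℝ) ^ 3 := by positivity
  obtain ⟨w, hw⟩ : ∃ w : ℝ, w = ((Y : ℝ) ^ 3) ^ (-θ) := ⟨_, rfl⟩
  have hw0 : 0 < w := by rw [hw]; positivity
  have hpz := hPZ Ω μ (ℕ × ℕ) (Fam Y) (Ev Q) fun x _ => ev_meas h x
  -- the first moment
  have hfirst : c * (Y : ℝ) ^ 2 * ((16 : ℝ) ^ (-θ) * w) ≤ ∑ x ∈ Fam Y, μ.real (Ev Q x) := by
    have e1 : ∀ x ∈ Fam Y, (16 : ℝ) ^ (-θ) * w ≤ μ.real (Ev Q x) := by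
      intro x hx
      rw [ev_prob h (mem_fam hx).2.2.1, hw, ← Real.mul_rpow (by norm_num) hYp.le]
      exact Real.rpow_le_rpow_of_nonpos (lt_of_lt_of_le hYp (R_bounds hx).1) (R_bounds hx).2
        (by linarith)
    have e2 := Finset.card_nsmul_le_sum (Fam Y) (fun x => μ.real (Ev Q x)) _ e1
    rw [nsmul_eq_mul] at e2
    exact (mul_le_mul_of_nonneg_right hY0 (by positivity)).trans e2
  -- the second moment
  have hsecond : ∑ x ∈ Fam Y, ∑ y ∈ Fam Y, μ.real (Ev Q x ∩ Ev Q y) ≤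
      w ^ 2 * (C * (Y : ℝ) ^ 4) := by
    have e1 : ∀ x ∈ Fam Y, (R x : ℝ) ^ (-θ) ≤ w := fun x hx => by
      rw [hw]
      exact Real.rpow_le_rpow_of_nonpos hYp (R_bounds hx).1 (by linarith)
    have e2 : ∀ x ∈ Fam Y, ∀ y ∈ Fam Y, μ.real (Ev Q x ∩ Ev Q y) ≤
        w ^ 2 * ((Nat.gcd (R x) (R y) : ℕ) : ℝ) ^ θ := by
      intro x hx y hy
      rw [ev_pair h (mem_fam hx).2.2.1 (mem_fam hy).2.2.1, pow_two]
      exact mul_le_mul_of_nonneg_right (mul_le_mul (e1 x hx) (e1 y hy)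
        (Real.rpow_nonneg (Nat.cast_nonneg _) _) hw0.le) (Real.rpow_nonneg (Nat.cast_nonneg _) _)
    calc ∑ x ∈ Fam Y, ∑ y ∈ Fam Y, μ.real (Ev Q x ∩ Ev Q y) ≤
        ∑ x ∈ Fam Y, ∑ y ∈ Fam Y, w ^ 2 * ((Nat.gcd (R x) (R y) : ℕ) : ℝ) ^ θ :=
          Finset.sum_le_sum fun x hx => Finset.sum_le_sum fun y hy => e2 x hx y hy
      _ = w ^ 2 * ∑ x ∈ Fam Y, ∑ y ∈ Fam Y, ((Nat.gcd (R x) (R y) : ℕ) : ℝ) ^ θ := by
          rw [Finset.mul_sum]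
          refine Finset.sum_congr rfl fun x _ => ?_
          rw [Finset.mul_sum]
      _ ≤ w ^ 2 * (C * (Y : ℝ) ^ 4) := mul_le_mul_of_nonneg_left (hsum Y hY1) (by positivity)
  obtain ⟨u, hu⟩ : ∃ u, u = μ.real (⋃ x ∈ Fam Y, Ev Q x) := ⟨_, rfl⟩
  have hu0 : 0 ≤ u := by rw [hu]; exact measureReal_nonneg
  rw [← hu] at hpz ⊢
  have h5 : (c * (Y : ℝ) ^ 2 * ((16 : ℝ) ^ (-θ) * w)) ^ 2 ≤
      (∑ x ∈ Fam Y, μ.real (Ev Q x)) ^ 2 := pow_le_pow_left₀ (by positivity) hfirst 2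
  have h6 := h5.trans (hpz.trans (mul_le_mul_of_nonneg_left hsecond hu0))
  rw [div_le_iff₀ hC]
  have h7 : (0 : ℝ) < w ^ 2 * (Y : ℝ) ^ 4 := by positivity
  refine le_of_mul_le_mul_right ?_ h7
  calc c ^ 2 * ((16 : ℝ) ^ (-θ)) ^ 2 * (w ^ 2 * (Y : ℝ) ^ 4) =
      (c * (Y : ℝ) ^ 2 * ((16 : ℝ) ^ (-θ) * w)) ^ 2 := by ring
    _ ≤ u * (w ^ 2 * (C * (Y : ℝ) ^ 4)) := h6
    _ = u * C * (w ^ 2 * (Y : ℝ) ^ 4) := by ring

/-- the coprime pairs `(a, b)` for which all primes of `a b (a + b)` are in `Q` -/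
def Pairs (Q : Set ℕ) : Set (ℕ × ℕ) :=
  {x | 0 < x.1 ∧ 0 < x.2 ∧ Nat.Coprime x.1 x.2 ∧ ∀ p : ℕ, p.Prime → p ∣ R x → p ∈ Q}

/-- **infinitely many solutions with positive probability** -/
theorem infinite_pos (hLOW : S_LOW) (hSUM : S_SUM) (hPZ : S_PZ) (hLIM : S_LIM) {Ω : Type}
    [MeasurableSpace Ω] {μ : Measure Ω} [IsProbabilityMeasure μ] {Q : Ω → Set ℕ} {θ : ℝ}
    (h : IndNat μ Q θ) (h0 : 0 ≤ θ) (h1 : θ < 2 / 3) :
    0 < μ {ω | (Pairs (Q ω)).Infinite} := by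
  obtain ⟨c, hc, Y₀, hpos⟩ := pos hLOW hSUM hPZ h h0 h1
  have h2 := hLIM Ω μ (fun k => ⋃ x ∈ Fam (2 ^ k), Ev Q x) c hc
    (fun k => Finset.measurableSet_biUnion _ fun x _ => ev_meas h x) Y₀
    (fun k hk => hpos _ (hk.trans Nat.lt_two_pow_self.le))
  refine lt_of_lt_of_le h2 (measure_mono fun ω hω => ?_)
  intro hfin
  obtain ⟨N, hN⟩ := (hfin.image Prod.fst).bddAbove
  obtain ⟨k, hk, hk2⟩ := hω N
  obtain ⟨x, hx, hx2⟩ := Set.mem_iUnion₂.1 hk2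
  obtain ⟨m1, m2, m3, m4, -⟩ := mem_fam hx
  rw [Finset.mem_Ioc] at m1 m2
  have h3 : x ∈ Pairs (Q ω) := by
    refine ⟨by omega, by omega, m4, fun p hp hpd => ?_⟩
    exact hx2 p (Nat.mem_primeFactors.2 ⟨hp, hpd, m3.ne_zero⟩)
  have h4 : x.1 ≤ N := hN ⟨x, h3, rfl⟩
  have h5 : k < 2 ^ k := Nat.lt_two_pow_self
  omega

end Pool.Agent.K3h37.RS.Low
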