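import Mathlib
import Pool.Agent.K3h37.RS.Low.Fin
import Pool.Agent.K3h37.RS.JInv

/-!
# Random sets of primes of `ℚ`, and the units `a / (a + b)`
-/

set_option autoImplicit false

namespace Pool.Agent.K3h37.RS.Low

open NumberField IsDedekindDomain MeasureTheory
open Pool.Agent.TH876.Loc
open Pool.Agent.K3h24.SB (qq qq_prime qq_inj exists_qq val_nat_one)

/-- the rational primes of a set of primes of `ℚ` -/
def nat (P : Set (Pr ℚ)) : Set ℕ := {p | ∃ v ∈ P, qq v = p}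

theorem ind_nat {Ω : Type} [MeasurableSpace Ω] {μ : Measure Ω} {P : Ω → Set (Pr ℚ)} {θ : ℝ}
    (h : ∀ T : Finset (Pr ℚ), MeasurableSet {ω | ∀ v ∈ T, v ∈ P ω} ∧
      μ {ω | ∀ v ∈ T, v ∈ P ω} =
        ENNReal.ofReal (∏ v ∈ T, (Ideal.absNorm v.asIdeal : ℝ) ^ (-θ))) :
    IndNat μ (fun ω => nat (P ω)) θ := by
  classical
  intro T hT
  have hf : {v : Pr ℚ | qq v ∈ T}.Finite := by
    refine Set.Finite.of_finite_image (f := qq) (T.finite_toSet.subset ?_) fun v _ w _ h => qq_inj h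
    rintro _ ⟨v, hv, rfl⟩
    exact hv
  obtain ⟨T', hT'⟩ : ∃ T' : Finset (Pr ℚ), T' = hf.toFinset := ⟨_, rfl⟩
  have hmem : ∀ v, v ∈ T' ↔ qq v ∈ T := by
    intro v
    rw [hT', Set.Finite.mem_toFinset]
    exact Iff.rfl
  have himg : T'.image qq = T := by
    ext p
    rw [Finset.mem_image]
    constructor
    · rintro ⟨v, hv, rfl⟩
      exact (hmem v).1 hv
    · intro hp
      obtain ⟨v, rfl⟩ := exists_qq (hT p hp)
      exact ⟨v, (hmem v).2 hp, rfl⟩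
  have hset : {ω | ∀ p ∈ T, p ∈ nat (P ω)} = {ω | ∀ v ∈ T', v ∈ P ω} := by
    ext ω
    constructor
    · intro h1 v hv
      obtain ⟨w, hw, hwv⟩ := h1 _ ((hmem v).1 hv)
      rwa [← qq_inj hwv]
    · intro h1 p hp
      obtain ⟨v, rfl⟩ := exists_qq (hT p hp)
      exact ⟨v, h1 v ((hmem v).2 hp), rfl⟩
  rw [hset]
  obtain ⟨h1, h2⟩ := h T'
  refine ⟨h1, ?_⟩
  rw [h2, ← himg, Finset.prod_image fun v _ w _ h => qq_inj h]
  rfl

theorem pairs_mono {Z Z' : Set ℕ} (h : ∀ p : ℕ, p.Prime → p ∈ Z → p ∈ Z') : Pairs Z ⊆ Pairs Z' :=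
  fun _ hx => ⟨hx.1, hx.2.1, hx.2.2.1, fun p hp hd => h p hp (hx.2.2.2 p hp hd)⟩

/-- the primes of `ℚ` over the elements of a finite set -/
theorem exists_over (S : Finset ℕ) : ∃ S' : Finset (Pr ℚ), ∀ P : Set (Pr ℚ),
    Pairs (nat P ∪ (S : Set ℕ)) ⊆ Pairs (nat (P ∪ (S' : Set (Pr ℚ)))) := by
  classical
  have hf : {v : Pr ℚ | qq v ∈ S}.Finite := by
    refine Set.Finite.of_finite_image (f := qq) (S.finite_toSet.subset ?_) fun v _ w _ h => qq_inj h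
    rintro _ ⟨v, hv, rfl⟩
    exact hv
  refine ⟨hf.toFinset, fun P => pairs_mono fun p hp hpZ => ?_⟩
  rcases hpZ with ⟨v, hv, rfl⟩ | h
  · exact ⟨v, Or.inl hv, rfl⟩
  · obtain ⟨v, rfl⟩ := exists_qq hp
    refine ⟨v, Or.inr ?_, rfl⟩
    rw [Set.Finite.coe_toFinset]
    exact h

/-- the map `(a, b) ↦ a / (a + b)` -/
def quo (x : ℕ × ℕ) : ℚ := (x.1 : ℚ) / (x.1 + x.2)

theorem quo_inj (Z : Set ℕ) : Set.InjOn quo (Pairs Z) := by
  rintro x ⟨hx1, hx2, hx3, -⟩ y ⟨hy1, hy2, hy3, -⟩ hxy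
  unfold quo at hxy
  have h1 : (0 : ℚ) < x.1 := by exact_mod_cast hx1
  have h2 : (0 : ℚ) < x.2 := by exact_mod_cast hx2
  have h3 : (0 : ℚ) < y.1 := by exact_mod_cast hy1
  have h4 : (0 : ℚ) < y.2 := by exact_mod_cast hy2
  rw [div_eq_div_iff (by positivity) (by positivity)] at hxy
  have h5 : (x.1 : ℚ) * y.2 = y.1 * x.2 := by linarith
  have h6 : x.1 * y.2 = y.1 * x.2 := by exact_mod_cast h5
  have e1 : x.1 ∣ y.1 := hx3.dvd_of_dvd_mul_right (h6 ▸ Dvd.intro _ rfl)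
  have e2 : y.1 ∣ x.1 := hy3.dvd_of_dvd_mul_right (h6.symm ▸ Dvd.intro _ rfl)
  have e3 : x.1 = y.1 := Nat.dvd_antisymm e1 e2
  have e4 : x.2 = y.2 := by
    rw [e3] at h6
    exact (Nat.eq_of_mul_eq_mul_left hy1 h6).symm
  exact Prod.ext e3 e4

theorem quo_unit {P : Set (Pr ℚ)} {x : ℕ × ℕ} (hx : x ∈ Pairs (nat P)) :
    quo x ≠ 0 ∧ quo x ≠ 1 ∧ ∀ v : Pr ℚ, v ∉ P →
      v.valuation ℚ (quo x) = 1 ∧ v.valuation ℚ (1 - quo x) = 1 := by
  obtain ⟨hx1, hx2, hx3, hx4⟩ := hx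
  have h1 : (0 : ℚ) < x.1 := by exact_mod_cast hx1
  have h2 : (0 : ℚ) < x.2 := by exact_mod_cast hx2
  have h12 : ((x.1 : ℚ) + x.2) ≠ 0 := by positivity
  have e1 : 1 - quo x = (x.2 : ℚ) / (x.1 + x.2) := by
    unfold quo
    field_simp
    ring
  refine ⟨?_, ?_, fun v hv => ?_⟩
  · unfold quo
    positivity
  · intro h
    rw [h, sub_self] at e1
    have : (0 : ℚ) < (x.2 : ℚ) / (x.1 + x.2) := by positivity
    linarith
  · have hnd : ¬ qq v ∣ R x := by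
      intro hd
      obtain ⟨w, hw, hwv⟩ := hx4 _ (qq_prime v) hd
      rw [qq_inj hwv] at hw
      exact hv hw
    have n1 : ¬ qq v ∣ x.1 := fun h => hnd ((h.mul_right _).mul_right _)
    have n2 : ¬ qq v ∣ x.2 := fun h => hnd ((h.mul_left _).mul_right _)
    have n3 : ¬ qq v ∣ x.1 + x.2 := fun h => hnd (h.mul_left _)
    have v1 := (val_nat_one v x.1).2 n1
    have v2 := (val_nat_one v x.2).2 n2
    have v3 := (val_nat_one v (x.1 + x.2)).2 n3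
    push_cast at v3
    rw [e1]
    unfold quo
    rw [map_div₀, map_div₀, v1, v2, v3]
    exact ⟨div_one _, div_one _⟩

end Pool.Agent.K3h37.RS.Low
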