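import Mathlib
import Pool.Agent.K3h37.RS.Low.Trans
import Pool.Agent.Y729.FW.Surj

/-!
# Legendre curves with bad reduction in a random set of primes: the heights are not bounded
-/

set_option autoImplicit false

namespace Pool.Agent.K3h37.RS.Low

open NumberField IsDedekindDomain MeasureTheory Height
open Pool.Agent.TH876.Loc
open Pool.Agent.K3h24.SB (qq qq_prime qq_inj exists_qq val_nat_one mem_p)

/-- the Legendre curve `y² = x (x - 1) (x - l)` -/
def leg (l : ℚ) : WeierstrassCurve ℚ := ⟨0, -(1 + l), 0, l, 0⟩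

theorem leg_Δ (l : ℚ) : (leg l).Δ = 16 * (l ^ 2 * (1 - l) ^ 2) := by
  unfold leg WeierstrassCurve.Δ WeierstrassCurve.b₂ WeierstrassCurve.b₄ WeierstrassCurve.b₆
    WeierstrassCurve.b₈
  ring

theorem leg_c4 (l : ℚ) : (leg l).c₄ = 16 * (l ^ 2 - l + 1) := by
  unfold leg WeierstrassCurve.c₄ WeierstrassCurve.b₂ WeierstrassCurve.b₄
  ring

/-- the modular invariant -/
theorem leg_j {l : ℚ} (h0 : l ≠ 0) (h1 : l ≠ 1) :
    (leg l).Δ ≠ 0 ∧ (leg l).c₄ ^ 3 / (leg l).Δ * (l ^ 2 * (1 - l) ^ 2) =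
      256 * (l ^ 2 - l + 1) ^ 3 := by
  have h2 : (1 : ℚ) - l ≠ 0 := sub_ne_zero.2 (Ne.symm h1)
  have h3 : l ^ 2 * (1 - l) ^ 2 ≠ 0 := mul_ne_zero (pow_ne_zero _ h0) (pow_ne_zero _ h2)
  rw [leg_Δ, leg_c4]
  refine ⟨mul_ne_zero (by norm_num) h3, ?_⟩
  field_simp
  ring

/-- good reduction -/
theorem leg_good {l : ℚ} (v : Pr ℚ) (h2 : ¬ qq v ∣ 2) (h3 : v.valuation ℚ l = 1)
    (h4 : v.valuation ℚ (1 - l) = 1) :
    v.valuation ℚ (leg l).a₁ ≤ 1 ∧ v.valuation ℚ (leg l).a₂ ≤ 1 ∧ v.valuation ℚ (leg l).a₃ ≤ 1 ∧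
    v.valuation ℚ (leg l).a₄ ≤ 1 ∧ v.valuation ℚ (leg l).a₆ ≤ 1 ∧ v.valuation ℚ (leg l).Δ = 1 := by
  have e2 : v.valuation ℚ (2 : ℚ) = 1 := by
    have := (val_nat_one v 2).2 h2
    exact_mod_cast this
  have e16 : v.valuation ℚ (16 : ℚ) = 1 := by
    have : (16 : ℚ) = 2 ^ 4 := by norm_num
    rw [this, map_pow, e2, one_pow]
  refine ⟨?_, ?_, ?_, ?_, ?_, ?_⟩
  · show v.valuation ℚ 0 ≤ 1
    rw [map_zero]
    exact zero_le_one
  · show v.valuation ℚ (-(1 + l)) ≤ 1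
    rw [Valuation.map_neg]
    refine (Valuation.map_add _ _ _).trans ?_
    rw [map_one, h3, max_self]
  · show v.valuation ℚ 0 ≤ 1
    rw [map_zero]
    exact zero_le_one
  · show v.valuation ℚ l ≤ 1
    rw [h3]
  · show v.valuation ℚ 0 ≤ 1
    rw [map_zero]
    exact zero_le_one
  · rw [leg_Δ, map_mul, map_mul, map_pow, map_pow, e16, h3, h4]
    simp

/-- the height of the modular invariant is large -/
theorem height_large {Z : Set ℕ} {x : ℕ × ℕ} (hx : x ∈ Pairs Z) {j : ℚ}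
    (hj : j * (quo x ^ 2 * (1 - quo x) ^ 2) = 256 * (quo x ^ 2 - quo x + 1) ^ 3) :
    Real.log (R x : ℝ) - Real.log 256 ≤ logHeight₁ j := by
  obtain ⟨h1, h2, h3, -⟩ := hx
  obtain ⟨a, ha⟩ : ∃ a : ℤ, a = x.1 := ⟨_, rfl⟩
  obtain ⟨b, hb⟩ : ∃ b : ℤ, b = x.2 := ⟨_, rfl⟩
  have haQ : (x.1 : ℚ) = a := by rw [ha]; push_cast; rfl
  have hbQ : (x.2 : ℚ) = b := by rw [hb]; push_cast; rfl
  have ha0 : (0 : ℤ) < a := by rw [ha]; exact_mod_cast h1
  have hb0 : (0 : ℤ) < b := by rw [hb]; exact_mod_cast h2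
  have ha0Q : (0 : ℚ) < a := by exact_mod_cast ha0
  have hb0Q : (0 : ℚ) < b := by exact_mod_cast hb0
  have hcop : IsCoprime a b := by
    rw [ha, hb]
    exact Nat.isCoprime_iff_coprime.2 h3
  obtain ⟨n, hn⟩ : ∃ n : ℤ, n = a ^ 2 + a * b + b ^ 2 := ⟨_, rfl⟩
  obtain ⟨m, hm⟩ : ∃ m : ℤ, m = a * b * (a + b) := ⟨_, rfl⟩
  have hm0 : 0 < m := by rw [hm]; positivity
  have hnm : IsCoprime n m := by
    rw [hm]
    refine IsCoprime.mul_right (IsCoprime.mul_right ?_ ?_) ?_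
    · -- `n = b ^ 2` modulo `a`
      have e1 : IsCoprime (b ^ 2) a := (hcop.symm).pow_left
      have e2 : n = b ^ 2 + a * (a + b) := by rw [hn]; ring
      rw [e2]
      exact e1.add_mul_left_left _
    · have e1 : IsCoprime (a ^ 2) b := hcop.pow_left
      have e2 : n = a ^ 2 + b * (a + b) := by rw [hn]; ring
      rw [e2]
      exact e1.add_mul_left_left _
    · have e0 : IsCoprime a (a + b) := by
        have := hcop.mul_add_left_right 1
        simpa using this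
      have e1 : IsCoprime (a ^ 2) (a + b) := e0.pow_left
      have e2 : n = a ^ 2 + (a + b) * b := by rw [hn]; ring
      rw [e2]
      exact e1.add_mul_left_left _
  -- the equation in integers
  have hq : quo x = (a : ℚ) / (a + b) := by
    unfold quo
    rw [haQ, hbQ]
  have hc0 : ((a : ℚ) + b) ≠ 0 := by positivity
  have h1q : 1 - quo x = (b : ℚ) / (a + b) := by
    rw [hq]
    field_simp
    ring
  have hjm : j * (m : ℚ) ^ 2 = 256 * (n : ℚ) ^ 3 := by
    rw [h1q, hq] at hj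
    rw [hm, hn]
    push_cast
    field_simp at hj
    linear_combination hj
  have hjd : j = (j.num : ℚ) / j.den := (Rat.num_div_den j).symm
  have hd0 : (j.den : ℚ) ≠ 0 := by exact_mod_cast j.den_ne_zero
  have hint : j.num * m ^ 2 = 256 * n ^ 3 * j.den := by
    have h5 : (j.num : ℚ) * m ^ 2 = 256 * n ^ 3 * j.den := by
      rw [hjd] at hjm
      rw [div_mul_eq_mul_div, div_eq_iff hd0] at hjm
      exact hjm
    exact_mod_cast h5
  have hdvd : m ^ 2 ∣ 256 * (j.den : ℤ) := by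
    have h5 : m ^ 2 ∣ n ^ 3 * (256 * (j.den : ℤ)) := ⟨j.num, by linear_combination -hint⟩
    exact (IsCoprime.pow hnm.symm : IsCoprime (m ^ 2) (n ^ 3)).dvd_of_dvd_mul_left h5
  have hle : m ^ 2 ≤ 256 * (j.den : ℤ) := by
    refine Int.le_of_dvd ?_ hdvd
    have := j.den_pos
    positivity
  have hmR : (m : ℝ) = (R x : ℝ) := by
    rw [hm, ha, hb]
    unfold R
    push_cast
    ring
  have hR1 : (1 : ℝ) ≤ R x := by
    rw [← hmR]
    exact_mod_cast hm0
  have hleR : (R x : ℝ) ≤ 256 * (j.den : ℝ) := by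
    have h5 : ((m : ℝ)) ^ 2 ≤ 256 * (j.den : ℝ) := by exact_mod_cast hle
    rw [hmR] at h5
    nlinarith
  rw [Rat.logHeight₁_eq_log_max]
  have hdenR : (0 : ℝ) < j.den := by exact_mod_cast j.den_pos
  have h6 : Real.log (j.den : ℝ) ≤ Real.log ((max j.num.natAbs j.den : ℕ) : ℝ) := by
    refine Real.log_le_log hdenR ?_
    exact_mod_cast le_max_right _ _
  have h7 := Real.log_le_log (by linarith) hleR
  rw [Real.log_mul (by norm_num) hdenR.ne'] at h7
  linarith

/-- an infinite set of pairs contains pairs with large product -/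
theorem exists_large {Z : Set ℕ} (h : (Pairs Z).Infinite) (B : ℕ) : ∃ x ∈ Pairs Z, B < R x := by
  by_contra hc
  push Not at hc
  refine h (((Finset.range (B + 1)) ×ˢ (Finset.range (B + 1))).finite_toSet.subset fun x hx => ?_)
  have h1 := hc x hx
  obtain ⟨x1, x2, -⟩ := hx
  have h2 : x.1 ≤ R x := by
    unfold R
    rw [mul_assoc]
    exact Nat.le_mul_of_pos_right _ (by positivity)
  have h3 : x.2 ≤ R x := by
    unfold R
    rw [mul_comm x.1, mul_assoc]
    exact Nat.le_mul_of_pos_right _ (by positivity)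
  rw [Finset.mem_coe, Finset.mem_product, Finset.mem_range, Finset.mem_range]
  omega

end Pool.Agent.K3h37.RS.Low
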